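import Pool.Agent.N242.WM.Fin

set_option autoImplicit false

open Filter Topology

namespace Pool.Agent.Results.MP_479f73_an.FiniteDim

/-- The bounded operator `T` attains its norm: `‖T x‖ = ‖T‖` for some unit vector `x`. -/
def AttainsNorm {𝕜 E F : Type*} [RCLike 𝕜] [NormedAddCommGroup E] [NormedSpace 𝕜 E]
    [NormedAddCommGroup F] [NormedSpace 𝕜 F] (T : E →L[𝕜] F) : Prop :=
  ∃ x : E, ‖x‖ = 1 ∧ ‖T x‖ = ‖T‖

/-- `x` is a maximizing sequence for `T`: unit vectors with `‖T (x n)‖ → ‖T‖`. -/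
def Maximizing {𝕜 E F : Type*} [RCLike 𝕜] [NormedAddCommGroup E] [NormedSpace 𝕜 E]
    [NormedAddCommGroup F] [NormedSpace 𝕜 F] (T : E →L[𝕜] F) (x : ℕ → E) : Prop :=
  (∀ n, ‖x n‖ = 1) ∧ Tendsto (fun n => ‖T (x n)‖) atTop (𝓝 ‖T‖)

/-- The sequence `x` is weakly null. -/
def WeaklyNull (𝕜 : Type*) {E : Type*} [RCLike 𝕜] [NormedAddCommGroup E] [NormedSpace 𝕜 E]
    (x : ℕ → E) : Prop :=
  ∀ g : E →L[𝕜] 𝕜, Tendsto (fun n => g (x n)) atTop (𝓝 0)

/-- The pair `(E, F)` has the weak maximizing property: every bounded operator `T : E → F` that has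
a maximizing sequence which is not weakly null attains its norm. -/
def WMP (𝕜 E F : Type*) [RCLike 𝕜] [NormedAddCommGroup E] [NormedSpace 𝕜 E]
    [NormedAddCommGroup F] [NormedSpace 𝕜 F] : Prop :=
  ∀ T : E →L[𝕜] F, (∃ x : ℕ → E, Maximizing T x ∧ ¬ WeaklyNull 𝕜 x) → AttainsNorm T

/-- in finite dimensions every operator with a maximizing sequence attains its norm -/
theorem wmp_of_finite {𝕜 E F : Type*} [RCLike 𝕜] [NormedAddCommGroup E] [NormedSpace 𝕜 E]
    [NormedAddCommGroup F] [NormedSpace 𝕜 F] (h : FiniteDimensional 𝕜 E) : WMP 𝕜 E F := by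
  rintro T ⟨x, ⟨hx1, hx2⟩, -⟩
  have : ProperSpace E := FiniteDimensional.proper_rclike 𝕜 E
  obtain ⟨z, hz, φ, hφ, hφz⟩ := (isCompact_sphere (0 : E) 1).tendsto_subseq
    (x := x) (fun n => by simpa using hx1 n)
  refine ⟨z, by simpa using hz, ?_⟩
  have h1 : Tendsto (fun n => ‖T (x (φ n))‖) atTop (𝓝 ‖T z‖) :=
    ((T.continuous.tendsto z).comp hφz).norm
  exact tendsto_nhds_unique h1 (hx2.comp hφ.tendsto_atTop)

/-- Let `E` be a real or complex Banach space. The following are equivalent: `E` is finite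
dimensional; `(E, F)` has the weak maximizing property for every Banach space `F`; `(E, ℓ_∞)` has the
weak maximizing property. -/
theorem result (𝕜 : Type) [RCLike 𝕜] (E : Type*) [NormedAddCommGroup E] [NormedSpace 𝕜 E]
    [CompleteSpace E] :
    [FiniteDimensional 𝕜 E,
      ∀ (F : Type) [NormedAddCommGroup F] [NormedSpace 𝕜 F] [CompleteSpace F], WMP 𝕜 E F,
      WMP 𝕜 E (lp (fun _ : ℕ => 𝕜) ⊤)].TFAE := by
  tfae_have 1 → 2 := fun h F _ _ _ => wmp_of_finite h
  tfae_have 2 → 3 := fun h => h _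
  tfae_have 3 → 1 := by
    intro h
    refine Pool.Agent.N242.WM.finite_of_WMP (𝕜 := 𝕜) fun T hT => ?_
    obtain ⟨x, hx1, hx2, hx3⟩ := hT
    exact h T ⟨x, ⟨hx1, hx2⟩, hx3⟩
  tfae_finish

end Pool.Agent.Results.MP_479f73_an.FiniteDim
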